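import Pool.Agent.W528.HI.Stm

set_option autoImplicit false

/-! Project HI: arithmetic with three moduli, degree `D`. -/

namespace Pool.Agent.W816.HI.AT

open Finset

theorem single (n s : ℕ) (hn : 0 < n) : ∃ u d : ℕ, u.Coprime n ∧ d ∣ n ∧ u * s ≡ d [MOD n] := by
  have : NeZero n := ⟨hn.ne'⟩
  obtain ⟨d, hd, u, hu, hsu⟩ := ZMod.eq_unit_mul_divisor (s : ZMod n)
  obtain ⟨u', rfl⟩ := hu
  refine ⟨((u'⁻¹ : (ZMod n)ˣ) : ZMod n).val, d, ?_, hd, ?_⟩
  · rw [← ZMod.isUnit_iff_coprime, ZMod.natCast_zmod_val]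
    exact (u'⁻¹).isUnit
  · rw [← ZMod.natCast_eq_natCast_iff]
    push_cast
    rw [ZMod.natCast_zmod_val, hsu, ← mul_assoc, Units.inv_mul, one_mul]

theorem coprime_of_modEq {a b n : ℕ} (h : a ≡ b [MOD n]) (hb : b.Coprime n) : a.Coprime n := by
  unfold Nat.Coprime at *
  rw [h.gcd_eq]
  exact hb

/-- the residue of a divisor -/
theorem divisor_mod (n d P : ℕ) (hn : 0 < n) (hd : d ∣ n)
    (hP : ∀ l : ℕ, l.Prime → l ∣ n → P ≤ l) : P * (d % n) ≤ n ∧ (d = n ∨ P * d ≤ n) := by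
  obtain ⟨k, hk⟩ := hd
  rcases Nat.lt_or_ge k 2 with h | h
  · have h1 : k = 1 := by
      rcases Nat.eq_zero_or_pos k with h0 | h0
      · rw [h0, mul_zero] at hk; omega
      · omega
    rw [h1, mul_one] at hk
    rw [hk, Nat.mod_self]
    exact ⟨by omega, Or.inl rfl⟩
  · obtain ⟨l, hl, hlk⟩ := Nat.exists_prime_and_dvd (n := k) (by omega)
    have h1 : P ≤ l := hP l hl (hlk.trans ⟨d, by rw [hk]; ring⟩)
    have h2 : l ≤ k := Nat.le_of_dvd (by omega) hlk
    have h3 : P * d ≤ n := by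
      rw [hk, mul_comm]
      exact Nat.mul_le_mul_left _ (h1.trans h2)
    exact ⟨(Nat.mul_le_mul_left P (Nat.mod_le d n)).trans h3, Or.inr h3⟩

theorem fin_ineq (n e r D P Q R S g x y : ℕ) (hn : 0 < n) (he : 0 < e) (hr : 0 < r)
    (h1 : P * g ≤ n) (h2 : Q * x ≤ e) (h3 : R * y ≤ r)
    (h : D * (Q * R * S + P * R) + P * Q < P * Q * R) :
    D * (e * r * (g * S) + n * r * x) + n * e * y < n * e * r := by
  have A1 : Q * R * e * r * S * (P * g) ≤ Q * R * e * r * S * n := Nat.mul_le_mul_left _ h1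
  have A2 : P * R * n * r * (Q * x) ≤ P * R * n * r * e := Nat.mul_le_mul_left _ h2
  have A3 : P * Q * n * e * (R * y) ≤ P * Q * n * e * r := Nat.mul_le_mul_left _ h3
  refine Nat.lt_of_mul_lt_mul_left (a := P * Q * R) ?_
  calc P * Q * R * (D * (e * r * (g * S) + n * r * x) + n * e * y)
      = D * (Q * R * e * r * S * (P * g) + P * R * n * r * (Q * x)) + P * Q * n * e * (R * y) := by
        ring
    _ ≤ D * (Q * R * e * r * S * n + P * R * n * r * e) + P * Q * n * e * r :=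
        Nat.add_le_add (Nat.mul_le_mul_left D (Nat.add_le_add A1 A2)) A3
    _ = n * e * r * (D * (Q * R * S + P * R) + P * Q) := by ring
    _ < n * e * r * (P * Q * R) := Nat.mul_lt_mul_of_pos_left h
        (Nat.mul_pos (Nat.mul_pos hn he) hr)
    _ = P * Q * R * (n * e * r) := by ring

theorem main : Pool.Agent.W528.HI.AT := by
  intro n e r c F D P Q R hn2 he hr hen hrn her _ _ _ hP hQ hR hc hcN hF m a ha _ hmain
    j s₁ s₂ hj hjn hs₁ hs₂
  have hn : 0 < n := by omega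
  obtain ⟨u₀, g, hu₀, hg, hu₀j⟩ := single n j hn
  obtain ⟨u₁, d₁, hu₁, hd₁, hu₁s⟩ := single e s₁ he
  obtain ⟨u₂, d₂, hu₂, hd₂, hu₂s⟩ := single r s₂ hr
  have hne : n.Coprime e := hen.symm
  obtain ⟨v, hv1, hv2⟩ := Nat.chineseRemainder hne u₀ u₁
  have hner : (n * e).Coprime r := Nat.Coprime.mul_left hrn.symm her
  obtain ⟨j', hj1, hj2⟩ := Nat.chineseRemainder hner v u₂
  have hjn' : j' ≡ u₀ [MOD n] := (hj1.of_mul_right e).trans hv1
  have hje' : j' ≡ u₁ [MOD e] := (hj1.of_mul_left n).trans hv2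
  have hcN1 : c ≡ 1 [MOD n * e * r] := ((Nat.modEq_iff_dvd' hc.one_lt.le).2 hcN).symm
  have hcb : ∀ b : ℕ, c ^ b ≡ 1 [MOD n * e * r] := by
    intro b
    have h := hcN1.pow b
    rwa [one_pow] at h
  have hcn : ∀ b : ℕ, c ^ b ≡ 1 [MOD n] := fun b => ((hcb b).of_mul_right r).of_mul_right e
  have hce : ∀ b : ℕ, c ^ b ≡ 1 [MOD e] := fun b => ((hcb b).of_mul_right r).of_mul_left n
  have hcr : ∀ b : ℕ, c ^ b ≡ 1 [MOD r] := fun b => (hcb b).of_mul_left (n * e)
  have hPg : P * g ≤ n := by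
    rcases (divisor_mod n g P hn hg hP).2 with h | h
    · exfalso
      have h1 : u₀ * j ≡ 0 [MOD n] := by
        have h2 : g ≡ 0 [MOD n] := by
          rw [h]
          exact (Nat.modEq_zero_iff_dvd).2 dvd_rfl
        exact hu₀j.trans h2
      have h3 : n ∣ u₀ * j := (Nat.modEq_zero_iff_dvd).1 h1
      have h4 : n ∣ j := (Nat.Coprime.symm hu₀).dvd_of_dvd_mul_left h3
      exact absurd (Nat.le_of_dvd hj h4) (by omega)
    · exact h
  refine ⟨j', ?_, ?_⟩
  · exact Nat.Coprime.mul_right (Nat.Coprime.mul_right (coprime_of_modEq hjn' hu₀)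
      (coprime_of_modEq hje' hu₁)) (coprime_of_modEq hj2 hu₂)
  · have t0 : ∀ i b, (j' * (e * r * (j * a i % n)) * c ^ b) % (n * e * r) =
        e * r * ((g * a i) % n) := by
      intro i b
      have h1 : j' * (e * r * (j * a i % n)) * c ^ b = (e * r) * (j' * (j * a i % n) * c ^ b) := by
        ring
      have h2 : n * e * r = (e * r) * n := by ring
      rw [h1, h2, Nat.mul_mod_mul_left]
      congr 1
      have h3 : j' * (j * a i % n) * c ^ b ≡ g * a i [MOD n] := by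
        calc j' * (j * a i % n) * c ^ b ≡ u₀ * (j * a i) * 1 [MOD n] :=
              (hjn'.mul (Nat.mod_modEq _ _)).mul (hcn b)
          _ = (u₀ * j) * a i := by ring
          _ ≡ g * a i [MOD n] := hu₀j.mul_right _
      exact h3
    have t1 : ∀ b, (j' * (n * r * s₁) * c ^ b) % (n * e * r) = n * r * (d₁ % e) := by
      intro b
      have h1 : j' * (n * r * s₁) * c ^ b = (n * r) * (j' * s₁ * c ^ b) := by ring
      have h2 : n * e * r = (n * r) * e := by ring
      rw [h1, h2, Nat.mul_mod_mul_left]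
      congr 1
      have h3 : j' * s₁ * c ^ b ≡ d₁ [MOD e] := by
        calc j' * s₁ * c ^ b ≡ u₁ * s₁ * 1 [MOD e] := (hje'.mul_right s₁).mul (hce b)
          _ = u₁ * s₁ := mul_one _
          _ ≡ d₁ [MOD e] := hu₁s
      exact h3
    have t2 : ∀ b, (j' * (n * e * s₂) * c ^ b) % (n * e * r) = n * e * (d₂ % r) := by
      intro b
      have h1 : j' * (n * e * s₂) * c ^ b = (n * e) * (j' * s₂ * c ^ b) := by ring
      rw [h1, Nat.mul_mod_mul_left]
      congr 1
      have h3 : j' * s₂ * c ^ b ≡ d₂ [MOD r] := by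
        calc j' * s₂ * c ^ b ≡ u₂ * s₂ * 1 [MOD r] := (hj2.mul_right s₂).mul (hcr b)
          _ = u₂ * s₂ := mul_one _
          _ ≡ d₂ [MOD r] := hu₂s
      exact h3
    simp only [t0, t1, t2, Finset.sum_const, Finset.card_range, smul_eq_mul]
    rw [← Finset.mul_sum]
    have e0 : D * (F * ∑ i, e * r * (g * a i % n) + F * (n * r * (d₁ % e))) +
        F * (n * e * (d₂ % r)) =
        F * (D * (∑ i, e * r * (g * a i % n) + n * r * (d₁ % e)) + n * e * (d₂ % r)) := by ring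
    rw [e0]
    apply Nat.mul_lt_mul_of_pos_left _ hF
    have e1 : ∑ i, e * r * (g * a i % n) ≤ e * r * (g * ∑ i, a i) := by
      rw [← Finset.mul_sum]
      refine Nat.mul_le_mul_left _ ?_
      rw [Finset.mul_sum]
      exact Finset.sum_le_sum (fun i _ => Nat.mod_le _ _)
    have e2 := fin_ineq n e r D P Q R (∑ i, a i) g (d₁ % e) (d₂ % r) hn he hr hPg
      (divisor_mod e d₁ Q he hd₁ hQ).1 (divisor_mod r d₂ R hr hd₂ hR).1 hmain
    have e3 := Nat.mul_le_mul_left D (Nat.add_le_add_right e1 (n * r * (d₁ % e)))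
    omega

end Pool.Agent.W816.HI.AT
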