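import Mathlib
import Pool.Agent.W402.HI.Defs

/-!
HI-A1: Stokes for test functions, and the Cauchy integral off the support.
-/

set_option autoImplicit false

open Filter Topology MeasureTheory Metric

namespace Pool.Agent.W816.HI

open Pool.Agent.W402.HI

/-- bounded measurable functions with compact support are integrable -/
lemma integrable_bdd {E : Type*} [NormedAddCommGroup E] {f : ℂ → E} {C : ℝ}
    (hm : AEStronglyMeasurable f volume) (hb : ∀ z, ‖f z‖ ≤ C) (hs : HasCompactSupport f) :
    Integrable f := by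
  refine (integrableOn_iff_integrable_of_support_subset (subset_tsupport f)).1 ?_
  exact Measure.integrableOn_of_bounded (M := C) hs.measure_lt_top.ne hm
    (ae_of_all _ (fun z => hb z))

lemma fderiv_zero_off {F : ℂ → ℂ} {z : ℂ} (hz : z ∉ tsupport F) : fderiv ℝ F z = 0 := by
  have h1 : F =ᶠ[𝓝 z] fun _ => (0:ℂ) := by
    filter_upwards [(isClosed_tsupport F).isOpen_compl.mem_nhds hz] with w hw
    exact image_eq_zero_of_notMem_tsupport hw
  rw [h1.fderiv_eq]
  simp

lemma D_zero_off {F : ℂ → ℂ} {z : ℂ} (hz : z ∉ tsupport F) : D F z = 0 := by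
  unfold D
  rw [fderiv_zero_off hz]
  simp

lemma integrable_fderiv {F : ℂ → ℂ} (hF : Tst F) (v : ℂ) :
    Integrable (fun z => fderiv ℝ F z v) := by
  obtain ⟨C, hC⟩ := hF.bd
  refine integrable_bdd (C := C * ‖v‖) (measurable_fderiv_apply_const ℝ F v).aestronglyMeasurable
    ?_ ?_
  · intro z
    exact ((fderiv ℝ F z).le_opNorm v).trans (mul_le_mul_of_nonneg_right (hC z) (norm_nonneg v))
  · refine HasCompactSupport.intro hF.supp (fun z hz => ?_)
    rw [fderiv_zero_off hz]; rfl

lemma integral_fderiv {F : ℂ → ℂ} (hF : Tst F) (v : ℂ) : ∫ z, fderiv ℝ F z v = 0 := by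
  have hFi : Integrable F := hF.diff.continuous.integrable_of_hasCompactSupport hF.supp
  have key := integral_bilinear_hasLineDerivAt_right_eq_neg_left_of_integrable (μ := volume)
    (f := F) (f' := fun z => fderiv ℝ F z v) (g := fun _ => (1:ℂ)) (g' := fun _ => (0:ℂ)) (v := v)
    (B := ContinuousLinearMap.mul ℝ ℂ) (by simpa using integrable_fderiv hF v) (by simp)
    (by simpa using hFi) (fun x _ => (hF.diff x).hasFDerivAt.hasLineDerivAt v)
    (fun x _ => by
      have := (hasFDerivAt_const (𝕜 := ℝ) (1:ℂ) x).hasLineDerivAt v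
      simpa using this)
  simp only [ContinuousLinearMap.mul_apply', mul_zero, mul_one, integral_zero] at key
  have := key
  rw [eq_comm, neg_eq_zero] at this
  exact this

/-- A1: Stokes -/
theorem mainA1 : P_A1 := by
  intro F hF
  unfold D
  have h1 := integrable_fderiv hF 1
  have h2 := (integrable_fderiv hF Complex.I).const_mul Complex.I
  rw [integral_add h1 h2, integral_const_mul, integral_fderiv hF, integral_fderiv hF]
  simp

/-- product with a holomorphic function -/
lemma hasFDerivAt_mul_holo {F h : ℂ → ℂ} {z h' : ℂ} (hF : DifferentiableAt ℝ F z)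
    (hh : HasDerivAt h h' z) :
    HasFDerivAt (fun w => F w * h w)
      (F z • (ContinuousLinearMap.restrictScalars ℝ
        (ContinuousLinearMap.toSpanSingleton ℂ h') : ℂ →L[ℝ] ℂ) +
        h z • fderiv ℝ F z) z := by
  have h1 : HasFDerivAt h (ContinuousLinearMap.restrictScalars ℝ
        (ContinuousLinearMap.toSpanSingleton ℂ h') : ℂ →L[ℝ] ℂ) z := hh.hasFDerivAt.restrictScalars ℝ
  exact hF.hasFDerivAt.mul h1

lemma D_mul_holo {F h : ℂ → ℂ} {z h' : ℂ} (hF : DifferentiableAt ℝ F z)
    (hh : HasDerivAt h h' z) : D (fun w => F w * h w) z = D F z * h z := by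
  unfold D
  rw [(hasFDerivAt_mul_holo hF hh).fderiv]
  simp only [ContinuousLinearMap.add_apply, ContinuousLinearMap.smul_apply, smul_eq_mul,
    ContinuousLinearMap.coe_restrictScalars', ContinuousLinearMap.toSpanSingleton_apply]
  linear_combination (F z * h') * Complex.I_mul_I

/-- `F / (z - ζ)` is a test function if `ζ` is off the support of `F` -/
lemma tst_div {F : ℂ → ℂ} (hF : Tst F) {ζ : ℂ} (hζ : ζ ∉ tsupport F) :
    Tst (fun z => F z * (z - ζ)⁻¹) ∧ ∀ z, D (fun z => F z * (z - ζ)⁻¹) z = D F z / (z - ζ) := by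
  obtain ⟨C, hC⟩ := hF.bd
  obtain ⟨M, hM⟩ := hF.diff.continuous.bounded_above_of_compact_support hF.supp
  have hsub : Function.support (fun z => F z * (z - ζ)⁻¹) ⊆ Function.support F := by
    intro z hz
    rw [Function.mem_support] at hz ⊢
    exact left_ne_zero_of_mul hz
  have hts : tsupport (fun z => F z * (z - ζ)⁻¹) ⊆ tsupport F := closure_mono hsub
  obtain ⟨r, hr, hball⟩ := Metric.isOpen_iff.1 (isClosed_tsupport F).isOpen_compl ζ hζ
  have hder : ∀ z, z ≠ ζ → HasDerivAt (fun w : ℂ => (w - ζ)⁻¹) (-(1:ℂ) / (z - ζ) ^ 2) z := by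
    intro z hz
    exact ((hasDerivAt_id z).sub_const ζ).inv (sub_ne_zero.2 hz)
  have hzero : ∀ z, z ∉ tsupport F → HasFDerivAt (fun z => F z * (z - ζ)⁻¹) (0 : ℂ →L[ℝ] ℂ) z := by
    intro z hz
    have h1 : (fun z => F z * (z - ζ)⁻¹) =ᶠ[𝓝 z] fun _ => (0:ℂ) := by
      filter_upwards [(isClosed_tsupport F).isOpen_compl.mem_nhds hz] with w hw
      rw [image_eq_zero_of_notMem_tsupport hw, zero_mul]
    exact (hasFDerivAt_const (0:ℂ) z).congr_of_eventuallyEq h1
  have hne : ∀ z ∈ tsupport F, z ≠ ζ := fun z hz h => hζ (h ▸ hz)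
  refine ⟨⟨?_, ?_, ?_⟩, ?_⟩
  · intro z
    by_cases hz : z ∈ tsupport F
    · exact (hasFDerivAt_mul_holo (hF.diff z) (hder z (hne z hz))).differentiableAt
    · exact (hzero z hz).differentiableAt
  · refine ⟨M * (1 / r ^ 2) + 1 / r * C, fun z => ?_⟩
    have hM0 : 0 ≤ M := (norm_nonneg _).trans (hM 0)
    have hC0 : 0 ≤ C := (norm_nonneg _).trans (hC 0)
    by_cases hz : z ∈ tsupport F
    · rw [(hasFDerivAt_mul_holo (hF.diff z) (hder z (hne z hz))).fderiv]
      have hrz : r ≤ ‖z - ζ‖ := by
        by_contra hc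
        push Not at hc
        exact hball (by rw [mem_ball, dist_eq_norm]; exact hc) hz
      refine (norm_add_le _ _).trans (add_le_add ?_ ?_)
      · rw [norm_smul]
        refine mul_le_mul (hM z) ?_ (norm_nonneg _) hM0
        rw [ContinuousLinearMap.norm_restrictScalars, ContinuousLinearMap.norm_toSpanSingleton,
          norm_div, norm_neg, norm_one, norm_pow]
        exact one_div_le_one_div_of_le (by positivity) (pow_le_pow_left₀ hr.le hrz 2)
      · rw [norm_smul]
        refine mul_le_mul ?_ (hC z) (norm_nonneg _) (by positivity)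
        rw [norm_inv, one_div]
        exact inv_anti₀ hr hrz
    · rw [(hzero z hz).fderiv, norm_zero]
      positivity
  · exact HasCompactSupport.intro hF.supp (fun z hz => by
      rw [image_eq_zero_of_notMem_tsupport hz, zero_mul])
  · intro z
    by_cases hz : z ∈ tsupport F
    · rw [D_mul_holo (hF.diff z) (hder z (hne z hz)), div_eq_mul_inv]
    · rw [D_zero_off hz, zero_div]
      exact D_zero_off (fun h => hz (hts h))

/-- A2: Cauchy integral off the support -/
theorem mainA2 : P_A2 := by
  intro F hF ζ hζ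
  obtain ⟨h1, h2⟩ := tst_div hF hζ
  have := mainA1 _ h1
  simpa only [h2] using this

end Pool.Agent.W816.HI
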