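import Mathlib
import Pool.Agent.W402.HI.Defs
import Pool.Agent.W816.HI.A1

/-!
HI-A4: the separation theorem for operators.
-/

set_option autoImplicit false

open Filter Topology MeasureTheory Metric

namespace Pool.Agent.W816.HI

open Pool.Agent.W402.HI

set_option linter.unusedSectionVars false

section alg

variable {A : Type} [NormedRing A] [NormedAlgebra ℂ A] [CompleteSpace A]

/-- the integrand -/
noncomputable def Gf (T : A) (F : ℂ → ℂ) (z : ℂ) : A := D F z • resolvent T z

/-- data of a cut-off function -/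
structure Dat (T : A) (F : ℂ → ℂ) (c : ℝ) : Prop where
  tst : Tst F
  res : ∀ z, D F z ≠ 0 → z ∈ resolventSet ℂ T
  bd : ∃ M : ℝ, ∀ z, ‖D F z‖ * (1 + ‖resolvent T z‖) ≤ M * |z.re - c|

lemma meas_D (F : ℂ → ℂ) : Measurable (D F) :=
  (measurable_fderiv_apply_const ℝ F 1).add
    ((measurable_fderiv_apply_const ℝ F Complex.I).const_mul Complex.I)

lemma cont_res (T : A) : ContinuousOn (resolvent T) (resolventSet ℂ T) := fun _ hz =>
  (spectrum.hasDerivAt_resolvent_const_left hz).continuousAt.continuousWithinAt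

lemma meas_Gf {T : A} {F : ℂ → ℂ} (h : ∀ z, D F z ≠ 0 → z ∈ resolventSet ℂ T) :
    AEStronglyMeasurable (Gf T F) volume := by
  have hopen : IsOpen (resolventSet ℂ T) := spectrum.isOpen_resolventSet T
  have h1 : AEStronglyMeasurable (resolvent T) (volume.restrict (resolventSet ℂ T)) :=
    (cont_res T).aestronglyMeasurable hopen.measurableSet
  have h2 : AEStronglyMeasurable (Gf T F) (volume.restrict (resolventSet ℂ T)) :=
    (meas_D F).aestronglyMeasurable.smul h1
  have h3 : Gf T F = (resolventSet ℂ T).indicator (Gf T F) := by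
    symm
    rw [Set.indicator_eq_self]
    intro z hz
    apply h
    intro h0
    apply hz
    unfold Gf
    rw [h0, zero_smul]
  rw [h3]
  exact (aestronglyMeasurable_indicator_iff hopen.measurableSet).2 h2

lemma Gf_zero {T : A} {F : ℂ → ℂ} {z : ℂ} (hz : D F z = 0) : Gf T F z = 0 := by
  unfold Gf; rw [hz, zero_smul]

lemma Gf_bound {T : A} {F : ℂ → ℂ} {c : ℝ} (h : Dat T F c) :
    ∃ B : ℝ, 0 ≤ B ∧ ∀ z, ‖D F z‖ ≤ B ∧ ‖Gf T F z‖ ≤ B := by
  obtain ⟨M, hM⟩ := h.bd
  have hc : Continuous fun z : ℂ => |z.re - c| := by fun_prop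
  obtain ⟨B, hB⟩ := h.tst.supp.isCompact.exists_bound_of_continuousOn hc.continuousOn
  refine ⟨|M| * |B|, by positivity, fun z => ?_⟩
  by_cases hz : z ∈ tsupport F
  · have h1 := hM z
    have h2 := hB z hz
    rw [Real.norm_eq_abs, abs_abs] at h2
    have h3 : M * |z.re - c| ≤ |M| * |B| :=
      mul_le_mul (le_abs_self M) (h2.trans (le_abs_self B)) (abs_nonneg _) (abs_nonneg _)
    have h4 : 0 ≤ ‖D F z‖ * ‖resolvent T z‖ := by positivity
    have h5 : ‖D F z‖ * (1 + ‖resolvent T z‖) = ‖D F z‖ + ‖D F z‖ * ‖resolvent T z‖ := by ring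
    have h6 : 0 ≤ ‖D F z‖ := norm_nonneg _
    refine ⟨by linarith, ?_⟩
    unfold Gf
    exact (norm_smul_le _ _).trans (by linarith)
  · rw [Gf_zero (D_zero_off hz), D_zero_off hz, norm_zero, norm_zero]
    exact ⟨by positivity, by positivity⟩

lemma Gf_supp {T : A} {F : ℂ → ℂ} (h : Tst F) : HasCompactSupport (Gf T F) :=
  HasCompactSupport.intro h.supp (fun _ hz => Gf_zero (D_zero_off hz))

lemma int_Gf {T : A} {F : ℂ → ℂ} {c : ℝ} (h : Dat T F c) : Integrable (Gf T F) := by
  obtain ⟨B, _, hB⟩ := Gf_bound h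
  exact integrable_bdd (meas_Gf h.res) (fun z => (hB z).2) (Gf_supp h.tst)

lemma int_D {F : ℂ → ℂ} (h : Tst F) : Integrable (D F) :=
  (integrable_fderiv h 1).add ((integrable_fderiv h Complex.I).const_mul Complex.I)

/-- the resolvent commutes with everything commuting with `T` -/
lemma res_comm {T Q : A} (hQ : Q * T = T * Q) (z : ℂ) : Q * resolvent T z = resolvent T z * Q := by
  unfold resolvent
  by_cases hu : IsUnit (algebraMap ℂ A z - T)
  · obtain ⟨u, hu⟩ := hu
    rw [← hu, Ring.inverse_unit]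
    have h1 : Commute Q (u : A) := by
      rw [hu]
      have h2 : Commute Q (algebraMap ℂ A z) := (Algebra.commutes z Q).symm
      exact h2.sub_right hQ
    exact h1.units_inv_right
  · rw [Ring.inverse_non_unit _ hu, mul_zero, zero_mul]

lemma Gf_comm {T Q : A} (hQ : Q * T = T * Q) (F : ℂ → ℂ) (z : ℂ) : Q * Gf T F z = Gf T F z * Q := by
  unfold Gf
  rw [mul_smul_comm, smul_mul_assoc, res_comm hQ]

lemma AI_comm {T Q : A} (hQ : Q * T = T * Q) {F : ℂ → ℂ} {c : ℝ} (h : Dat T F c) :
    Q * (∫ z, Gf T F z) = (∫ z, Gf T F z) * Q := by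
  rw [← integral_const_mul_of_integrable (int_Gf h), ← integral_mul_const_of_integrable (int_Gf h)]
  simp_rw [Gf_comm hQ]

lemma res_mul {T : A} {z : ℂ} (hz : z ∈ resolventSet ℂ T) :
    (algebraMap ℂ A z - T) * resolvent T z = 1 := by
  unfold resolvent
  exact Ring.mul_inverse_cancel _ hz

lemma mul_res {T : A} {z : ℂ} (hz : z ∈ resolventSet ℂ T) :
    resolvent T z * (algebraMap ℂ A z - T) = 1 := by
  unfold resolvent
  exact Ring.inverse_mul_cancel _ hz

/-- nonvanishing of the integral -/
lemma AI_ne (h3 : P_A3) {T : A} {F : ℂ → ℂ} {c : ℝ} (h : Dat T F c)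
    (hμ : ∃ μ ∈ spectrum ℂ T, F μ ≠ 0 ∧ ∀ᶠ z in 𝓝 μ, D F z = 0) : (∫ z, Gf T F z) ≠ 0 := by
  obtain ⟨μ, hμs, hFμ, hev⟩ := hμ
  intro h0
  have hκ := h3 F h.tst μ hFμ hev
  obtain ⟨r, hr, hball⟩ := Metric.eventually_nhds_iff_ball.1 hev
  obtain ⟨B, hB0, hB⟩ := Gf_bound h
  have hinv : Measurable fun z : ℂ => (z - μ)⁻¹ := (measurable_id.sub_const μ).inv
  have hfar : ∀ z, D F z ≠ 0 → ‖(z - μ)⁻¹‖ ≤ r⁻¹ := by
    intro z hz
    rw [norm_inv]
    apply inv_anti₀ hr
    by_contra hc
    push Not at hc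
    exact hz (hball z (by rw [mem_ball, dist_eq_norm]; exact hc))
  have i1 : Integrable (fun z => (z - μ)⁻¹ • Gf T F z) := by
    refine integrable_bdd (C := r⁻¹ * B) (hinv.aestronglyMeasurable.smul (meas_Gf h.res)) ?_ ?_
    · intro z
      by_cases hz : D F z = 0
      · rw [Gf_zero hz, smul_zero, norm_zero]; positivity
      · exact (norm_smul_le _ _).trans (mul_le_mul (hfar z hz) (hB z).2 (norm_nonneg _)
          (by positivity))
    · exact HasCompactSupport.intro h.tst.supp (fun z hz => by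
        rw [Gf_zero (D_zero_off hz), smul_zero])
  have i2 : Integrable (fun z => D F z / (z - μ)) := by
    refine integrable_bdd (C := B * r⁻¹)
      ((meas_D F).div (measurable_id.sub_const μ)).aestronglyMeasurable ?_ ?_
    · intro z
      rw [div_eq_mul_inv]
      by_cases hz : D F z = 0
      · rw [hz, zero_mul, norm_zero]; positivity
      · exact (norm_mul_le _ _).trans (mul_le_mul (hB z).1 (hfar z hz) (norm_nonneg _) hB0)
    · exact HasCompactSupport.intro h.tst.supp (fun z hz => by
        rw [D_zero_off hz, zero_div])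
  set Y : A := ∫ z, (z - μ)⁻¹ • Gf T F z with hY
  set κ : ℂ := ∫ z, D F z / (z - μ) with hκd
  have e1 : ∀ z, (algebraMap ℂ A μ - T) * ((z - μ)⁻¹ • Gf T F z) =
      (D F z / (z - μ)) • (1 : A) - Gf T F z := by
    intro z
    by_cases hz : D F z = 0
    · rw [Gf_zero hz, hz]; simp
    · have hzμ : z - μ ≠ 0 := by
        intro h
        apply hz
        rw [sub_eq_zero.1 h]
        exact hball μ (mem_ball_self hr)
      have hres := res_mul (h.res z hz)
      unfold Gf
      rw [mul_smul_comm, mul_smul_comm]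
      have e2 : (algebraMap ℂ A μ - T) * resolvent T z = 1 - (z - μ) • resolvent T z := by
        have : algebraMap ℂ A μ - T = (algebraMap ℂ A z - T) - (z - μ) • (1 : A) := by
          rw [sub_smul, ← Algebra.algebraMap_eq_smul_one, ← Algebra.algebraMap_eq_smul_one]
          abel
        rw [this, sub_mul, hres, smul_mul_assoc, one_mul]
      rw [e2, smul_sub, smul_sub, smul_smul, smul_smul, smul_smul]
      congr 2
      · field_simp
      · field_simp
  have e2 : (algebraMap ℂ A μ - T) * Y = κ • (1 : A) := by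
    rw [hY, ← integral_const_mul_of_integrable i1]
    simp_rw [e1]
    rw [integral_sub (i2.smul_const _) (int_Gf h), h0, sub_zero, integral_smul_const]
  have hTY : T * Y = Y * T := by
    rw [hY, ← integral_const_mul_of_integrable i1, ← integral_mul_const_of_integrable i1]
    congr 1
    funext z
    rw [mul_smul_comm, smul_mul_assoc, Gf_comm (rfl : T * T = T * T)]
  have e3 : Y * (algebraMap ℂ A μ - T) = κ • (1 : A) := by
    rw [← e2, mul_sub, sub_mul, hTY, Algebra.commutes]
  apply hμs
  refine ⟨⟨algebraMap ℂ A μ - T, κ⁻¹ • Y, ?_, ?_⟩, rfl⟩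
  · rw [mul_smul_comm, e2, smul_smul, inv_mul_cancel₀ hκ, one_smul]
  · rw [smul_mul_assoc, e3, smul_smul, inv_mul_cancel₀ hκ, one_smul]

/-- first resolvent identity -/
lemma res_id {T : A} {z w : ℂ} (hz : z ∈ resolventSet ℂ T) (hw : w ∈ resolventSet ℂ T) :
    resolvent T z - resolvent T w = (w - z) • (resolvent T z * resolvent T w) := by
  have h1 : resolvent T z * ((algebraMap ℂ A w - T) - (algebraMap ℂ A z - T)) * resolvent T w =
      resolvent T z - resolvent T w := by
    rw [mul_sub, sub_mul, mul_assoc, res_mul hw, mul_one, mul_res hz, one_mul]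
  have h2 : (algebraMap ℂ A w - T) - (algebraMap ℂ A z - T) = (w - z) • (1 : A) := by
    rw [sub_smul, ← Algebra.algebraMap_eq_smul_one, ← Algebra.algebraMap_eq_smul_one]
    abel
  rw [← h1, h2, mul_smul_comm, mul_one, smul_mul_assoc]

/-- the product of the two integrals vanishes -/
lemma AI_mul (h2 : P_A2) {T : A} {F₁ F₂ : ℂ → ℂ} {c : ℝ} (d1 : Dat T F₁ c) (d2 : Dat T F₂ c)
    {Z : Set ℂ} (s1 : ∀ z ∈ tsupport F₁, z.re < c ∨ z ∈ Z)
    (s2 : ∀ z ∈ tsupport F₂, c < z.re ∨ z ∈ Z) (hZ : ∀ z ∈ Z, z.re = c) :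
    (∫ z, Gf T F₁ z) * (∫ z, Gf T F₂ z) = 0 := by
  obtain ⟨M1, hM1⟩ := d1.bd
  obtain ⟨M2, hM2⟩ := d2.bd
  obtain ⟨B1, hB10, hB1⟩ := Gf_bound d1
  obtain ⟨B2, hB20, hB2⟩ := Gf_bound d2
  have nz : ∀ (F : ℂ → ℂ) (M : ℝ), (∀ z, ‖D F z‖ * (1 + ‖resolvent T z‖) ≤ M * |z.re - c|) →
      ∀ z, z.re = c → D F z = 0 := by
    intro F M hM z hz
    have h1 := hM z
    rw [hz, sub_self, abs_zero, mul_zero] at h1
    have h3 : 0 < 1 + ‖resolvent T z‖ := by positivity
    have h4 : ‖D F z‖ ≤ 0 := by
      by_contra hc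
      push Not at hc
      have := mul_pos hc h3
      linarith
    exact norm_le_zero_iff.1 h4
  have l1 : ∀ z, D F₁ z ≠ 0 → z.re < c := by
    intro z hz
    have hz' : z ∈ tsupport F₁ := by
      by_contra hc; exact hz (D_zero_off hc)
    rcases s1 z hz' with h | h
    · exact h
    · exact absurd (nz F₁ M1 hM1 z (hZ z h)) hz
  have l2 : ∀ z, D F₂ z ≠ 0 → c < z.re := by
    intro z hz
    have hz' : z ∈ tsupport F₂ := by
      by_contra hc; exact hz (D_zero_off hc)
    rcases s2 z hz' with h | h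
    · exact h
    · exact absurd (nz F₂ M2 hM2 z (hZ z h)) hz
  have off2 : ∀ z, D F₁ z ≠ 0 → z ∉ tsupport F₂ := by
    intro z hz hc
    have := l1 z hz
    rcases s2 z hc with h | h
    · linarith
    · have := hZ z h; linarith
  have off1 : ∀ z, D F₂ z ≠ 0 → z ∉ tsupport F₁ := by
    intro z hz hc
    have := l2 z hz
    rcases s1 z hc with h | h
    · linarith
    · have := hZ z h; linarith
  -- the kernel
  set Ke : ℂ → ℂ → A := fun z w => (D F₁ z / (w - z)) • Gf T F₂ w with hKe
  have hid : ∀ z w, Gf T F₁ z * Gf T F₂ w = (D F₂ w / (w - z)) • Gf T F₁ z - Ke z w := by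
    intro z w
    by_cases hz : D F₁ z = 0
    · simp only [hKe]
      rw [Gf_zero hz, hz]; simp
    · by_cases hw : D F₂ w = 0
      · simp only [hKe]
        rw [Gf_zero hw, hw]; simp
      · have hne : w - z ≠ 0 := by
          intro h
          have h1 := l1 z hz
          have h2 := l2 w hw
          rw [sub_eq_zero.1 h] at h2
          linarith
        simp only [hKe, Gf]
        rw [smul_mul_smul_comm, smul_smul, smul_smul]
        have e := res_id (d1.res z hz) (d2.res w hw)
        have e1 : D F₂ w / (w - z) * D F₁ z = (D F₁ z * D F₂ w) / (w - z) := by ring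
        have e2 : D F₁ z / (w - z) * D F₂ w = (D F₁ z * D F₂ w) / (w - z) := by ring
        rw [e1, e2, ← smul_sub, e, smul_smul, div_mul_cancel₀ _ hne]
  -- integrability of the kernel
  have hKint : Integrable (Function.uncurry Ke) (volume.prod volume) := by
    have hmeas : AEStronglyMeasurable (Function.uncurry Ke) ((volume : Measure ℂ).prod volume) := by
      have m1 : Measurable fun p : ℂ × ℂ => D F₁ p.1 / (p.2 - p.1) :=
        ((meas_D F₁).comp measurable_fst).div (measurable_snd.sub measurable_fst)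
      have m2 : AEStronglyMeasurable (fun p : ℂ × ℂ => Gf T F₂ p.2)
          ((volume : Measure ℂ).prod volume) := (meas_Gf d2.res).comp_snd
      exact m1.aestronglyMeasurable.smul m2
    have hcomp : IsCompact (tsupport F₁ ×ˢ tsupport F₂) :=
      d1.tst.supp.isCompact.prod d2.tst.supp.isCompact
    have hzero : ∀ p : ℂ × ℂ, p ∉ tsupport F₁ ×ˢ tsupport F₂ → Function.uncurry Ke p = 0 := by
      intro p hp
      rw [Set.mem_prod, not_and_or] at hp
      rcases hp with hp | hp
      · simp only [hKe, Function.uncurry]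
        rw [D_zero_off hp]; simp
      · simp only [hKe, Function.uncurry]
        rw [Gf_zero (D_zero_off hp), smul_zero]
    have hsupp : Function.support (Function.uncurry Ke) ⊆ tsupport F₁ ×ˢ tsupport F₂ := by
      intro p hp
      by_contra hc
      exact hp (hzero p hc)
    refine (integrableOn_iff_integrable_of_support_subset hsupp).1 ?_
    refine Measure.integrableOn_of_bounded (M := |M1| * B2) hcomp.measure_lt_top.ne hmeas
      (ae_of_all _ (fun p => ?_))
    obtain ⟨z, w⟩ := p
    simp only [hKe, Function.uncurry]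
    by_cases hz : D F₁ z = 0
    · rw [hz, zero_div, zero_smul, norm_zero]; positivity
    · by_cases hw : D F₂ w = 0
      · rw [Gf_zero hw, smul_zero, norm_zero]; positivity
      · refine (norm_smul_le _ _).trans (mul_le_mul ?_ (hB2 w).2 (norm_nonneg _) (abs_nonneg _))
        have h1 := l1 z hz
        have h3 := l2 w hw
        have h4 : |z.re - c| ≤ ‖w - z‖ := by
          have := Complex.abs_re_le_norm (w - z)
          rw [Complex.sub_re, abs_of_pos (by linarith)] at this
          rw [abs_of_neg (by linarith)]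
          linarith
        have h5 : 0 < ‖w - z‖ := by
          have : 0 < |z.re - c| := abs_pos.2 (by linarith)
          linarith
        rw [norm_div, div_le_iff₀ h5]
        have h6 := hM1 z
        have h7 : ‖D F₁ z‖ ≤ ‖D F₁ z‖ * (1 + ‖resolvent T z‖) := by
          have : 0 ≤ ‖D F₁ z‖ * ‖resolvent T z‖ := by positivity
          linarith
        calc ‖D F₁ z‖ ≤ M1 * |z.re - c| := h7.trans h6
          _ ≤ |M1| * |z.re - c| := mul_le_mul_of_nonneg_right (le_abs_self M1) (abs_nonneg _)
          _ ≤ |M1| * ‖w - z‖ := mul_le_mul_of_nonneg_left h4 (abs_nonneg _)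
  -- inner integrals
  have hin : ∀ z, Gf T F₁ z * (∫ w, Gf T F₂ w) = -∫ w, Ke z w := by
    intro z
    by_cases hz : D F₁ z = 0
    · have : ∀ w, Ke z w = 0 := fun w => by simp only [hKe]; rw [hz]; simp
      simp_rw [this]
      rw [Gf_zero hz]; simp
    · have ho := off2 z hz
      obtain ⟨t1, t2⟩ := tst_div d2.tst ho
      have i1 : Integrable (fun w => D F₂ w / (w - z)) := by
        have := int_D t1
        refine this.congr (ae_of_all _ (fun w => t2 w))
      have i2 : Integrable (fun w => (D F₂ w / (w - z)) • Gf T F₁ z) := i1.smul_const _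
      have i3 : Integrable (fun w => Gf T F₁ z * Gf T F₂ w) :=
        (int_Gf d2).const_mul' (Gf T F₁ z)
      have i4 : Integrable (fun w => Ke z w) := by
        have := i2.sub i3
        refine this.congr (ae_of_all _ (fun w => ?_))
        simp only [Pi.sub_apply]
        rw [hid]
        abel
      rw [← integral_const_mul_of_integrable (int_Gf d2)]
      simp_rw [hid]
      rw [integral_sub i2 i4, integral_smul_const, h2 F₂ d2.tst z ho, zero_smul, zero_sub]
  have hout : ∀ w, ∫ z, Ke z w = 0 := by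
    intro w
    simp only [hKe]
    rw [integral_smul_const]
    by_cases hw : D F₂ w = 0
    · rw [Gf_zero hw, smul_zero]
    · have ho := off1 w hw
      have h5 := h2 F₁ d1.tst w ho
      have h6 : ∫ z, D F₁ z / (w - z) = -∫ z, D F₁ z / (z - w) := by
        rw [← integral_neg]
        congr 1
        funext z
        rw [← neg_sub z w, div_neg]
      rw [h6, h5, neg_zero, zero_smul]
  rw [← integral_mul_const_of_integrable (int_Gf d1)]
  simp_rw [hin]
  rw [integral_neg, integral_integral_swap hKint]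
  simp_rw [hout]
  simp

end alg

/-- A4: the separation theorem -/
theorem mainA4 (h2 : P_A2) (h3 : P_A3) : P_A4 := by
  intro X _ _ _ T c Z _ F₁ F₂ t1 t2 s1 s2 hZ r1 r2 b1 b2 m1 m2
  have d1 : Dat T F₁ c := ⟨t1, r1, b1⟩
  have d2 : Dat T F₂ c := ⟨t2, r2, b2⟩
  have n1 := AI_ne h3 d1 m1
  have n2 := AI_ne h3 d2 m2
  have hm := AI_mul h2 d1 d2 s1 s2 hZ
  set A1 : X →L[ℂ] X := ∫ z, Gf T F₁ z with hA1
  set A2 : X →L[ℂ] X := ∫ z, Gf T F₂ z with hA2
  refine ⟨LinearMap.ker (A1 : X →ₗ[ℂ] X), A1.isClosed_ker, ?_, ?_, ?_⟩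
  · intro hbot
    obtain ⟨x, hx⟩ : ∃ x, A2 x ≠ 0 := by
      by_contra hc
      push Not at hc
      exact n2 (ContinuousLinearMap.ext hc)
    have : A2 x ∈ LinearMap.ker (A1 : X →ₗ[ℂ] X) := by
      rw [LinearMap.mem_ker]
      have := congrArg (fun B : X →L[ℂ] X => B x) hm
      exact this
    rw [hbot, Submodule.mem_bot] at this
    exact hx this
  · intro htop
    apply n1
    ext x
    have : x ∈ LinearMap.ker (A1 : X →ₗ[ℂ] X) := by rw [htop]; trivial
    rw [LinearMap.mem_ker] at this
    exact this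
  · intro Q hQ x hx
    have h1 := AI_comm hQ d1
    rw [LinearMap.mem_ker] at hx ⊢
    have h4 := congrArg (fun B : X →L[ℂ] X => B x) h1
    change Q (A1 x) = A1 (Q x) at h4
    have h5 : A1 x = 0 := hx
    change A1 (Q x) = 0
    rw [← h4, h5, map_zero]

end Pool.Agent.W816.HI
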