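import Mathlib
import Pool.Agent.W402.HI.Defs

/-!
HI-B1: almost every vertical line is good for a Lipschitz curve.
-/

set_option autoImplicit false

open Filter Topology MeasureTheory Metric Set

namespace Pool.Agent.W816.HI

open Pool.Agent.W402.HI

/-- pairs of parameters of a double point with independent tangents -/
def Qs (γ : ℝ → ℂ) : Set (ℝ × ℝ) :=
  {p | γ p.1 = γ p.2 ∧ DifferentiableAt ℝ γ p.1 ∧ DifferentiableAt ℝ γ p.2 ∧
    ∀ u v : ℝ, (u:ℂ) * deriv γ p.1 = (v:ℂ) * deriv γ p.2 → u = 0 ∧ v = 0}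

lemma Qs_countable (γ : ℝ → ℂ) : (Qs γ).Countable := by
  have hd : DiscreteTopology (Qs γ) := by
    rw [discreteTopology_subtype_iff]
    rintro p ⟨h1, h2, h3, h4⟩
    rw [inf_principal_eq_bot]
    set L : ℝ × ℝ →L[ℝ] ℂ :=
      (ContinuousLinearMap.toSpanSingleton ℝ (deriv γ p.1)).comp (ContinuousLinearMap.fst ℝ ℝ ℝ) -
      (ContinuousLinearMap.toSpanSingleton ℝ (deriv γ p.2)).comp (ContinuousLinearMap.snd ℝ ℝ ℝ)
      with hL
    have hG : HasFDerivAt (fun q : ℝ × ℝ => γ q.1 - γ q.2) L p :=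
      (h2.hasDerivAt.hasFDerivAt.comp p hasFDerivAt_fst).sub
        (h3.hasDerivAt.hasFDerivAt.comp p hasFDerivAt_snd)
    have hker : LinearMap.ker (L : ℝ × ℝ →ₗ[ℝ] ℂ) = ⊥ := by
      rw [LinearMap.ker_eq_bot']
      rintro ⟨u, v⟩ huv
      have : (u:ℂ) * deriv γ p.1 = (v:ℂ) * deriv γ p.2 := by
        rw [← sub_eq_zero]
        simpa [hL] using huv
      obtain ⟨rfl, rfl⟩ := h4 u v this
      rfl
    obtain ⟨K, hK, hanti⟩ := (L : ℝ × ℝ →ₗ[ℝ] ℂ).exists_antilipschitzWith hker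
    have := hG.eventually_ne (c := 0) ⟨K, hanti⟩
    filter_upwards [this] with q hq hq2
    exact hq (sub_eq_zero.2 hq2.1)
  have : Countable (Qs γ) := TopologicalSpace.separableSpace_iff_countable.1 inferInstance
  exact Set.countable_coe_iff.1 this

lemma exists_dir {v : ℂ} (h : v.re ≠ 0) : ∃ d : ℂ, ‖d‖ = 1 ∧ 0 < d.re ∧
    ∃ ρ : ℝ, ρ ≠ 0 ∧ v = (ρ:ℂ) * d := by
  have hv : v ≠ 0 := by
    intro h0; rw [h0] at h; exact h rfl
  have hn : 0 < ‖v‖ := norm_pos_iff.2 hv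
  rcases lt_or_gt_of_ne h with h1 | h1
  · refine ⟨((-(‖v‖)⁻¹ : ℝ) : ℂ) * v, ?_, ?_, -‖v‖, neg_ne_zero.2 hn.ne', ?_⟩
    · rw [norm_mul, Complex.norm_real, norm_neg, norm_inv, norm_norm, inv_mul_cancel₀ hn.ne']
    · rw [Complex.re_ofReal_mul]
      have : 0 < (‖v‖)⁻¹ := inv_pos.2 hn
      nlinarith
    · rw [← mul_assoc, ← Complex.ofReal_mul, neg_mul_neg, mul_inv_cancel₀ hn.ne', Complex.ofReal_one,
        one_mul]
  · refine ⟨(((‖v‖)⁻¹ : ℝ) : ℂ) * v, ?_, ?_, ‖v‖, hn.ne', ?_⟩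
    · rw [norm_mul, Complex.norm_real, norm_inv, norm_norm, inv_mul_cancel₀ hn.ne']
    · rw [Complex.re_ofReal_mul]
      positivity
    · rw [← mul_assoc, ← Complex.ofReal_mul, mul_inv_cancel₀ hn.ne', Complex.ofReal_one, one_mul]

lemma tangent_aux {q : ℝ → ℂ} {t ρ : ℝ} (hq : HasDerivAt q (ρ:ℂ) t) (h0 : q t = 0) (hρ : ρ ≠ 0)
    {θ : ℝ} (hθ : 0 < θ) : ∀ᶠ s in 𝓝 t, |(q s).im| ≤ θ * |(q s).re| := by
  have hρ' : 0 < |ρ| := abs_pos.2 hρ
  have hε : 0 < θ * |ρ| / (1 + θ) := by positivity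
  have h1 := (hasDerivAt_iff_isLittleO.1 hq).def hε
  filter_upwards [h1] with s hs
  rw [h0, sub_zero, Real.norm_eq_abs] at hs
  have e1 : (q s - (s - t) • (ρ:ℂ)).im = (q s).im := by simp
  have e2 : (q s - (s - t) • (ρ:ℂ)).re = (q s).re - (s - t) * ρ := by simp
  have h2 : |(q s).im| ≤ θ * |ρ| / (1 + θ) * |s - t| := by
    rw [← e1]; exact (Complex.abs_im_le_norm _).trans hs
  have h3 : |(q s).re - (s - t) * ρ| ≤ θ * |ρ| / (1 + θ) * |s - t| := by
    rw [← e2]; exact (Complex.abs_re_le_norm _).trans hs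
  have h4 : |s - t| * |ρ| ≤ |(q s).re| + |(q s).re - (s - t) * ρ| := by
    rw [← abs_mul]
    have := abs_sub_abs_le_abs_sub ((s - t) * ρ) (q s).re
    rw [abs_sub_comm] at this
    linarith
  have h5 : θ * |ρ| / (1 + θ) * (1 + θ) = θ * |ρ| := by field_simp
  have h6 : (|ρ| - θ * |ρ| / (1 + θ)) * |s - t| ≤ |(q s).re| := by linarith
  have h7 : θ * ((|ρ| - θ * |ρ| / (1 + θ)) * |s - t|) = θ * |ρ| / (1 + θ) * |s - t| := by
    field_simp
    ring
  calc |(q s).im| ≤ θ * |ρ| / (1 + θ) * |s - t| := h2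
    _ = θ * ((|ρ| - θ * |ρ| / (1 + θ)) * |s - t|) := h7.symm
    _ ≤ θ * |(q s).re| := mul_le_mul_of_nonneg_left h6 hθ.le

/-- B1 -/
theorem mainB1 : P_B1 := by
  intro γ K hγ a b hab
  set φ : ℝ → ℝ := fun t => (γ t).re with hφd
  have hφ : LipschitzWith K φ := by
    apply LipschitzWith.of_dist_le_mul
    intro s t
    rw [Real.dist_eq]
    have h1 := hγ.dist_le_mul s t
    rw [dist_eq_norm] at h1
    refine le_trans ?_ h1
    have := Complex.abs_re_le_norm (γ s - γ t)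
    rwa [Complex.sub_re] at this
  have hφder : ∀ t, DifferentiableAt ℝ γ t → HasDerivAt φ (deriv γ t).re t := by
    intro t ht
    exact Complex.reCLM.hasFDerivAt.comp_hasDerivAt t ht.hasDerivAt
  -- exceptional sets
  set N1 : Set ℝ := φ '' {t | ¬ DifferentiableAt ℝ γ t} with hN1
  set N2 : Set ℝ := φ '' {t | DifferentiableAt ℝ γ t ∧ (deriv γ t).re = 0} with hN2
  set N3 : Set ℝ := (fun p : ℝ × ℝ => φ p.1) '' Qs γ with hN3
  have v1 : volume N1 = 0 := by
    have h1 : volume {t | ¬ DifferentiableAt ℝ γ t} = 0 := ae_iff.1 hγ.ae_differentiableAt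
    have h2 := hφ.hausdorffMeasure_image_le (d := 1) zero_le_one {t | ¬ DifferentiableAt ℝ γ t}
    rw [hausdorffMeasure_real, h1, mul_zero] at h2
    exact le_antisymm h2 bot_le
  have v2 : volume N2 = 0 := by
    refine addHaar_image_eq_zero_of_det_fderivWithin_eq_zero
      (f' := fun t => ContinuousLinearMap.toSpanSingleton ℝ (deriv γ t).re) volume ?_ ?_
    · intro t ht
      exact (hφder t ht.1).hasFDerivAt.hasFDerivWithinAt
    · intro t ht
      rw [ContinuousLinearMap.det_toSpanSingleton]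
      exact ht.2
  have v3 : volume N3 = 0 := ((Qs_countable γ).image _).measure_zero volume
  obtain ⟨c, hc, hcN⟩ : ∃ c ∈ Ioo a b, c ∉ N1 ∪ N2 ∪ N3 := by
    by_contra hcon
    push Not at hcon
    have h1 : volume (Ioo a b) ≤ volume (N1 ∪ N2 ∪ N3) := measure_mono hcon
    have h2 : volume (N1 ∪ N2 ∪ N3) = 0 := by
      rw [measure_union_null_iff, measure_union_null_iff]
      exact ⟨⟨v1, v2⟩, v3⟩
    rw [h2, Real.volume_Ioo] at h1
    have h3 : 0 < ENNReal.ofReal (b - a) := ENNReal.ofReal_pos.2 (by linarith)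
    exact absurd h1 (not_le.2 h3)
  have n1 : ∀ t, φ t = c → DifferentiableAt ℝ γ t := by
    intro t ht
    by_contra h
    exact hcN (Or.inl (Or.inl ⟨t, h, ht⟩))
  have n2 : ∀ t, φ t = c → (deriv γ t).re ≠ 0 := by
    intro t ht h
    exact hcN (Or.inl (Or.inr ⟨t, ⟨n1 t ht, h⟩, ht⟩))
  have n3 : ∀ t s, φ t = c → (t, s) ∉ Qs γ := by
    intro t s ht h
    exact hcN (Or.inr ⟨(t, s), h, ht⟩)
  -- the parameters
  set P : Set ℝ := {t ∈ Icc (0:ℝ) 1 | φ t = c} with hP
  have hPc : IsCompact P := by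
    have : P = Icc (0:ℝ) 1 ∩ {t | φ t = c} := rfl
    rw [this]
    exact isCompact_Icc.inter_right (isClosed_eq hφ.continuous continuous_const)
  have hPd : IsDiscrete P := by
    rw [isDiscrete_iff_nhdsNE]
    intro t ht
    rw [inf_principal_eq_bot]
    have := (hφder t (n1 t ht.2)).eventually_ne (c := c) (n2 t ht.2)
    filter_upwards [this] with s hs hs2
    exact hs hs2.2
  have hPf : P.Finite := hPc.finite hPd
  have hZf : (γ '' P).Finite := hPf.image γ
  have hZ : ∀ z : ℂ, z ∈ hZf.toFinset ↔ z ∈ γ '' Icc 0 1 ∧ z.re = c := by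
    intro z
    rw [Set.Finite.mem_toFinset]
    constructor
    · rintro ⟨t, ht, rfl⟩
      exact ⟨⟨t, ht.1, rfl⟩, ht.2⟩
    · rintro ⟨⟨t, ht, rfl⟩, h⟩
      exact ⟨t, ⟨ht, h⟩, rfl⟩
  have main : ∀ w ∈ hZf.toFinset, ∃ d : ℂ, ‖d‖ = 1 ∧ 0 < d.re ∧ TangentAt (γ '' Icc 0 1) w d := by
    intro w hw
    rw [Set.Finite.mem_toFinset] at hw
    obtain ⟨t0, ht0, hw0⟩ := hw
    obtain ⟨d, hd1, hd2, ρ0, hρ0, hv0⟩ := exists_dir (n2 t0 ht0.2)
    refine ⟨d, hd1, hd2, ?_⟩
    have hd0 : d ≠ 0 := by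
      intro h; rw [h, norm_zero] at hd1; exact zero_ne_one hd1
    intro θ hθ
    -- the property near every parameter of the point
    have hnear : ∀ t ∈ Icc (0:ℝ) 1, γ t = w →
        {s | |((γ s - w) / d).im| ≤ θ * |((γ s - w) / d).re|} ∈ 𝓝 t := by
      intro t ht htw
      have htc : φ t = c := by
        have : φ t = φ t0 := by simp only [hφd]; rw [htw, hw0]
        rw [this]; exact ht0.2
      have hnQ := n3 t t0 htc
      have hex : ∃ u v : ℝ, (u:ℂ) * deriv γ t = (v:ℂ) * deriv γ t0 ∧ ¬ (u = 0 ∧ v = 0) := by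
        by_contra hcon
        push Not at hcon
        apply hnQ
        refine ⟨htw.trans hw0.symm, n1 t htc, n1 t0 ht0.2, ?_⟩
        intro u v huv
        by_contra hc
        exact hc (hcon u v huv)
      obtain ⟨u, v, huv, hne⟩ := hex
      have hγt0 : deriv γ t0 ≠ 0 := by
        intro h; exact n2 t0 ht0.2 (by rw [h]; rfl)
      have hγt : deriv γ t ≠ 0 := by
        intro h; exact n2 t htc (by rw [h]; rfl)
      have hu : u ≠ 0 := by
        intro hu
        apply hne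
        refine ⟨hu, ?_⟩
        rw [hu, Complex.ofReal_zero, zero_mul] at huv
        rcases mul_eq_zero.1 huv.symm with h2 | h2
        · exact_mod_cast h2
        · exact absurd h2 hγt0
      have huC : (u:ℂ) ≠ 0 := by exact_mod_cast hu
      have hdt : deriv γ t = ((v / u * ρ0 : ℝ) : ℂ) * d := by
        have h1 : (u:ℂ) * deriv γ t = (u:ℂ) * (((v / u * ρ0 : ℝ) : ℂ) * d) := by
          rw [huv, hv0]
          push_cast
          field_simp
        exact mul_left_cancel₀ huC h1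
      have hρ : v / u * ρ0 ≠ 0 := by
        intro h
        rw [h, Complex.ofReal_zero, zero_mul] at hdt
        exact hγt hdt
      have hq : HasDerivAt (fun s => (γ s - w) / d) (((v / u * ρ0 : ℝ) : ℂ)) t := by
        have h1 := (((n1 t htc).hasDerivAt).sub_const w).div_const d
        have h2 : deriv γ t / d = ((v / u * ρ0 : ℝ) : ℂ) := by
          rw [hdt, mul_div_assoc, div_self hd0, mul_one]
        rwa [h2] at h1
      exact tangent_aux hq (by simp [htw]) hρ hθ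
    set S : Set ℝ := {s | |((γ s - w) / d).im| ≤ θ * |((γ s - w) / d).re|} with hS
    have hC : IsCompact (Icc (0:ℝ) 1 \ interior S) := isCompact_Icc.diff isOpen_interior
    have hwC : w ∉ γ '' (Icc (0:ℝ) 1 \ interior S) := by
      rintro ⟨s, ⟨hs1, hs2⟩, hsw⟩
      exact hs2 (mem_interior_iff_mem_nhds.2 (hnear s hs1 hsw))
    obtain ⟨r, hr, hball⟩ := Metric.isOpen_iff.1
      (hC.image hγ.continuous).isClosed.isOpen_compl w hwC
    refine ⟨r, hr, ?_⟩
    rintro z ⟨s, hs, rfl⟩ hz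
    have h1 := hball (by rw [mem_ball, dist_eq_norm]; exact hz : γ s ∈ ball w r)
    have h2 : s ∈ interior S := by
      by_contra h
      exact h1 ⟨s, ⟨hs, h⟩, rfl⟩
    have h3 : s ∈ S := interior_subset h2
    exact h3
  choose! dir hdir using main
  exact ⟨c, hc, hZf.toFinset, dir, hZ, hdir⟩

end Pool.Agent.W816.HI
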